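import Pool.Agent.Q17.CL.Count

/-!
# The smallest class closed under solvable Galois extensions and under composites and normal closures
-/

set_option autoImplicit false

open NumberField Filter Topology

namespace Pool.Agent.Q17.CL

open Pool.Agent.TH444.ML (dsc)
open Pool.Agent.Q258.LQ (SolvGal STow SAb fin_even fin_odd finite_dsc exists_PT sTow_iff)

/-- the smallest class containing `𝓑` and closed under: solvable Galois extensions; fields between
the composite of two members and its normal closure over `K`; fields `L` between `F E` and its normal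
closure, `F` a member, `E` any field with `4 [E : K] ^ 2 ≤ [L : K]` -/
inductive Cls {K Ω : Type} [Field K] [Field Ω] [Algebra K Ω]
    (𝓑 : Set (IntermediateField K Ω)) : IntermediateField K Ω → Prop
  | base (F : IntermediateField K Ω) : F ∈ 𝓑 → Cls 𝓑 F
  | step (F L : IntermediateField K Ω) : Cls 𝓑 F → SolvGal F L → Cls 𝓑 L
  | comp (F E L : IntermediateField K Ω) : Cls 𝓑 F → Cls 𝓑 E → F ≤ L → E ≤ L →
      L ≤ IntermediateField.normalClosure K (F ⊔ E : IntermediateField K Ω) Ω → Cls 𝓑 L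
  | small (F E L : IntermediateField K Ω) : Cls 𝓑 F → F ≤ L → E ≤ L →
      L ≤ IntermediateField.normalClosure K (F ⊔ E : IntermediateField K Ω) Ω →
      4 * Module.finrank K E ^ 2 ≤ Module.finrank K L → Cls 𝓑 L

variable {K Ω : Type} [Field K] [NumberField K] [Field Ω] [Algebra K Ω] [IsAlgClosure K Ω]

/-- the proper members: nontrivial solvable Galois extensions of members -/
theorem sAb_cls (𝓑 : Set (IntermediateField K Ω)) (L : IntermediateField K Ω) :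
    L ∈ SAb {L | Cls 𝓑 L} ↔ ∃ F, Cls 𝓑 F ∧ F ≠ L ∧ SolvGal F L := by
  have h1 : ∀ F, STow {L | Cls 𝓑 L} F → Cls 𝓑 F := by
    intro F hF
    induction hF with
    | base F hF => exact hF
    | step F L _ hs ih => exact Cls.step F L ih hs
  constructor
  · rintro ⟨F, hF, h2, h3⟩
    exact ⟨F, h1 F hF, h2, h3⟩
  · rintro ⟨F, hF, h2, h3⟩
    exact ⟨F, STow.base F hF, h2, h3⟩

theorem sAb_mono {𝓐 𝓑 : Set (IntermediateField K Ω)} (h : 𝓐 ⊆ 𝓑) : SAb 𝓐 ⊆ SAb 𝓑 := by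
  have h1 : ∀ F, STow 𝓐 F → STow 𝓑 F := by
    intro F hF
    induction hF with
    | base F hF => exact STow.base F (h hF)
    | step F L _ hs ih => exact STow.step F L ih hs
  rintro L ⟨F, hF, h2, h3⟩
  exact ⟨F, h1 F hF, h2, h3⟩

/-- the degrees in a proper step -/
theorem lt_of_le_ne {F L : IntermediateField K Ω} (h : F ≤ L) (hne : F ≠ L)
    (hL : 0 < Module.finrank K L) :
    0 < Module.finrank K F ∧ Module.finrank K F < Module.finrank K L ∧
      Module.finrank K F ∣ Module.finrank K L := by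
  have hfdL : FiniteDimensional K L := FiniteDimensional.of_finrank_pos hL
  have hfdF : FiniteDimensional K F :=
    (IntermediateField.restrictAlgEquiv h).symm.toLinearEquiv.finiteDimensional
  refine ⟨Module.finrank_pos, ?_, IntermediateField.finrank_dvd_of_le_right h⟩
  refine lt_of_le_of_ne (IntermediateField.finrank_le_of_le_right h) ?_
  intro h2
  exact hne (IntermediateField.eq_of_le_of_finrank_eq h h2)

/-- quadratic extensions -/
theorem solvGal_two {F L : IntermediateField K Ω} (h : F ≤ L) (hF : 0 < Module.finrank K F)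
    (h2 : Module.finrank K L = 2 * Module.finrank K F) : SolvGal F L := by
  have hfdF : FiniteDimensional K F := FiniteDimensional.of_finrank_pos hF
  have hnf : NumberField F := NumberField.of_module_finite K F
  have h3 : Module.finrank F (IntermediateField.extendScalars h) = 2 := by
    have h4 := Pool.Agent.Q258.LQ.finrank_extend h
    rw [h2, mul_comm] at h4
    exact Nat.eq_of_mul_eq_mul_right hF h4
  have hq : Algebra.IsQuadraticExtension F (IntermediateField.extendScalars h) := ⟨h3⟩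
  exact Pool.Agent.Q258.LQ.solvGal_of_prime h inferInstance (by rw [h3]; exact Nat.prime_two)

/-- a proper subfield has index two or at least three -/
theorem two_or_three {F L : IntermediateField K Ω} (h : F ≤ L) (hne : F ≠ L)
    (hL : 0 < Module.finrank K L) :
    SolvGal F L ∨ 3 * Module.finrank K F ≤ Module.finrank K L := by
  obtain ⟨h1, h2, t, ht⟩ := lt_of_le_ne h hne hL
  rcases Nat.lt_or_ge t 3 with h3 | h3
  · left
    have h4 : t = 2 := by
      have h5 : t ≠ 0 := by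
        rintro rfl
        omega
      have h6 : t ≠ 1 := by
        rintro rfl
        omega
      omega
    subst h4
    exact solvGal_two h h1 (by rw [ht]; ring)
  · right
    rw [ht, mul_comm]
    exact Nat.mul_le_mul_left _ h3

/-- the members of smaller degree -/
def Low (𝓑 : Set (IntermediateField K Ω)) (n : ℕ) : Set (IntermediateField K Ω) :=
  {L | Cls 𝓑 L ∧ 0 < Module.finrank K L ∧ Module.finrank K L < n}

/-- the remaining fields: composites of fields of small degree, and fields below their normal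
closures -/
def Rest (𝓑 : Set (IntermediateField K Ω)) (n : ℕ) : Set (IntermediateField K Ω) :=
  {L | ∃ F ∈ Low 𝓑 n, ∃ E : IntermediateField K Ω, 3 * Module.finrank K F ≤ n ∧
    ((E ∈ Low 𝓑 n ∧ 3 * Module.finrank K E ≤ n) ∨ 4 * Module.finrank K E ^ 2 ≤ n) ∧
    F ≤ L ∧ E ≤ L ∧ L ≤ IntermediateField.normalClosure K (F ⊔ E : IntermediateField K Ω) Ω}

theorem cases_cls (𝓑 : Set (IntermediateField K Ω)) (n : ℕ) (hn : 0 < n)
    (L : IntermediateField K Ω) (hL : Cls 𝓑 L) (hd : Module.finrank K L = n) :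
    L ∈ 𝓑 ∨ L ∈ SAb (𝓑 ∪ Low 𝓑 n) ∨ L ∈ Rest 𝓑 n := by
  induction hL with
  | base F hF => exact Or.inl hF
  | step F L hF hs ih =>
    by_cases h : F = L
    · subst h
      exact ih hd
    · obtain ⟨hle, -⟩ := id hs
      obtain ⟨h1, h2, -⟩ := lt_of_le_ne hle h (by omega)
      exact Or.inr (Or.inl ⟨F, STow.base F (Or.inr ⟨hF, h1, by omega⟩), h, hs⟩)
  | comp F E L hF hE hFL hEL hle ihF ihE =>
    by_cases h : F = L
    · subst h
      exact ihF hd
    · by_cases h' : E = L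
      · subst h'
        exact ihE hd
      · obtain ⟨h1, h2, -⟩ := lt_of_le_ne hFL h (by omega)
        obtain ⟨h1', h2', -⟩ := lt_of_le_ne hEL h' (by omega)
        rcases two_or_three hFL h (by omega) with h3 | h3
        · exact Or.inr (Or.inl ⟨F, STow.base F (Or.inr ⟨hF, h1, by omega⟩), h, h3⟩)
        · rcases two_or_three hEL h' (by omega) with h3' | h3'
          · exact Or.inr (Or.inl ⟨E, STow.base E (Or.inr ⟨hE, h1', by omega⟩), h', h3'⟩)
          · exact Or.inr (Or.inr ⟨F, ⟨hF, h1, by omega⟩, E, by omega,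
              Or.inl ⟨⟨hE, h1', by omega⟩, by omega⟩, hFL, hEL, hle⟩)
  | small F E L hF hFL hEL hle h4 ih =>
    by_cases h : F = L
    · subst h
      exact ih hd
    · obtain ⟨h1, h2, -⟩ := lt_of_le_ne hFL h (by omega)
      rcases two_or_three hFL h (by omega) with h3 | h3
      · exact Or.inr (Or.inl ⟨F, STow.base F (Or.inr ⟨hF, h1, by omega⟩), h, h3⟩)
      · exact Or.inr (Or.inr ⟨F, ⟨hF, h1, by omega⟩, E, by omega,
          Or.inr (by omega), hFL, hEL, hle⟩)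

/-- the hypothesis on families, in terms of `PB` -/
def Good (𝓑 : Set (IntermediateField K Ω)) : Prop :=
  ∀ m : ℕ, 0 < m → ∃ θ : ℝ, θ < 3 / 2 ∧ PB 𝓑 m θ

theorem Good.union {𝓐 𝓑 : Set (IntermediateField K Ω)} (h1 : Good 𝓐) (h2 : Good 𝓑) :
    Good (𝓐 ∪ 𝓑) := by
  intro m hm
  obtain ⟨θ, hθ, h3⟩ := h1 m hm
  obtain ⟨θ', hθ', h4⟩ := h2 m hm
  exact ⟨max θ θ', max_lt hθ hθ',
    (h3.mono hm (le_max_left _ _) fun _ h _ => h).union hm
      (h4.mono hm (le_max_right _ _) fun _ h _ => h)⟩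

theorem good_bot : Good ({⊥} : Set (IntermediateField K Ω)) :=
  fun m hm => ⟨0, by norm_num, PB.singleton ⊥ m hm 0 le_rfl⟩

/-- the limit in even degree -/
theorem lim_even {𝓑 : Set (IntermediateField K Ω)} (h : Good 𝓑) (k : ℕ) (hk : 0 < k)
    (hne : ∃ F, STow 𝓑 F ∧ Module.finrank K F = k) :
    ∃ c : ℝ, 0 < c ∧ Tendsto (fun X : ℝ => ((Cnt (SAb 𝓑) (2 * k) X).ncard : ℝ) / X)
      atTop (𝓝 c) :=
  fin_even 𝓑 h k hk hne

theorem bd_odd {𝓑 : Set (IntermediateField K Ω)} (h : Good 𝓑) (n : ℕ) (hn : Odd n) :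
    ∃ η : ℝ, η < 1 ∧ PB (SAb 𝓑) n η :=
  fin_odd 𝓑 h n hn

theorem bd_even {𝓑 : Set (IntermediateField K Ω)} (h : Good 𝓑) (k : ℕ) (hk : 0 < k) :
    PB (SAb 𝓑) (2 * k) 1 := by
  have h1 : Good (𝓑 ∪ {⊥}) := h.union good_bot
  obtain ⟨F, hF1, hF2⟩ := exists_PT (𝓑 ∪ {⊥}) (Or.inr rfl) k hk
  obtain ⟨c, hc, hlim⟩ := lim_even h1 k hk ⟨F, (sTow_iff _ F).2 hF1, hF2⟩
  refine PB.mono (𝓑 := SAb (𝓑 ∪ {⊥})) (by omega) le_rfl
    (fun L hL _ => sAb_mono Set.subset_union_left hL) ?_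
  obtain ⟨X₀, hX₀⟩ := eventually_atTop.1 (hlim.eventually (gt_mem_nhds (by linarith : c < c + 1)))
  refine ⟨(c + 1) + (Cnt (SAb (𝓑 ∪ {⊥})) (2 * k) (max X₀ 1)).ncard, fun X hX => ?_⟩
  have hX0 : 0 < X := by linarith
  rw [Real.rpow_one]
  rcases le_total X₀ X with h2 | h2
  · have h3 := hX₀ X h2
    rw [div_lt_iff₀ hX0] at h3
    have h4 : (0 : ℝ) ≤ (Cnt (SAb (𝓑 ∪ {⊥})) (2 * k) (max X₀ 1)).ncard * X := by positivity
    rw [add_mul]
    linarith
  · have h3 : (Cnt (SAb (𝓑 ∪ {⊥})) (2 * k) X).ncard ≤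
        (Cnt (SAb (𝓑 ∪ {⊥})) (2 * k) (max X₀ 1)).ncard := by
      refine Set.ncard_le_ncard ?_ (cnt_finite _ _ (by omega) _)
      rintro L ⟨h4, h5, h6⟩
      exact ⟨h4, h5, h6.trans (h2.trans (le_max_left _ _))⟩
    have h4 : ((Cnt (SAb (𝓑 ∪ {⊥})) (2 * k) X).ncard : ℝ) ≤
        (Cnt (SAb (𝓑 ∪ {⊥})) (2 * k) (max X₀ 1)).ncard := by exact_mod_cast h3
    have h5 : (0 : ℝ) ≤ (c + 1) * X := by positivity
    have h6 : (0 : ℝ) ≤ (Cnt (SAb (𝓑 ∪ {⊥})) (2 * k) (max X₀ 1)).ncard := by positivity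
    rw [add_mul]
    nlinarith

theorem bd_any {𝓑 : Set (IntermediateField K Ω)} (h : Good 𝓑) (n : ℕ) (hn : 0 < n) :
    PB (SAb 𝓑) n 1 := by
  rcases Nat.even_or_odd n with h1 | h1
  · obtain ⟨k, hk⟩ := h1
    have h2 : n = 2 * k := by omega
    subst h2
    exact bd_even h k (by omega)
  · obtain ⟨η, hη, h2⟩ := bd_odd h n h1
    exact h2.mono hn hη.le fun _ h _ => h

theorem PB.biUnion' {ι : Type} (s : Finset ι) (A : ι → Set (IntermediateField K Ω)) {m : ℕ}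
    (hm : 0 < m) (h : ∀ i ∈ s, ∃ ρ : ℝ, ρ < 1 ∧ PB (A i) m ρ) :
    ∃ ρ : ℝ, ρ < 1 ∧ PB (⋃ i ∈ s, A i) m ρ := by
  classical
  induction s using Finset.induction_on with
  | empty => exact ⟨0, by norm_num, by simpa using PB.empty m hm 0⟩
  | insert a s ha ih =>
    obtain ⟨ρ, h1, h2⟩ := ih fun i hi => h i (Finset.mem_insert_of_mem hi)
    obtain ⟨ρ', h3, h4⟩ := h a (Finset.mem_insert_self _ _)
    refine ⟨max ρ ρ', max_lt h1 h3, ?_⟩
    rw [Finset.set_biUnion_insert]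
    exact (h4.mono hm (le_max_right _ _) fun _ h _ => h).union hm
      (h2.mono hm (le_max_left _ _) fun _ h _ => h)

/-- few remaining fields -/
theorem rest_PB' (𝓑 : Set (IntermediateField K Ω)) (n : ℕ) (hn : 0 < n)
    (h : ∀ m : ℕ, 0 < m → m < n → ∃ θ : ℝ, θ < 3 / 2 ∧ PB {L | Cls 𝓑 L} m θ) :
    ∃ ρ : ℝ, ρ < 1 ∧ PB (Rest 𝓑 n) n ρ := by
  classical
  set S : Finset (ℕ × ℕ) := (Finset.range (n + 1) ×ˢ Finset.range (n + 1)).filter fun q =>
    0 < q.1 ∧ q.1 ∣ n ∧ 3 * q.1 ≤ n ∧ 0 < q.2 ∧ q.2 ∣ n ∧ 3 * q.2 ≤ n with hS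
  set T : Finset (ℕ × ℕ) := (Finset.range (n + 1) ×ˢ Finset.range (n + 1)).filter fun q =>
    0 < q.1 ∧ q.1 ∣ n ∧ 3 * q.1 ≤ n ∧ 0 < q.2 ∧ q.2 ∣ n ∧ 4 * q.2 ^ 2 ≤ n with hT
  have key : ∀ u t : ℕ, u * t = n → 3 * u ≤ n → ∀ θ : ℝ, θ < 3 / 2 → θ / t < 1 / 2 := by
    intro u t hut h3 θ hθ
    have hu : 0 < u := by
      rcases Nat.eq_zero_or_pos u with h4 | h4
      · subst h4; omega
      · exact h4
    have ht : 3 ≤ t := by
      rw [← hut, mul_comm] at h3
      exact Nat.le_of_mul_le_mul_left h3 hu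
    have ht0 : (3 : ℝ) ≤ t := by exact_mod_cast ht
    rw [div_lt_iff₀ (by linarith)]
    linarith
  obtain ⟨ρ, hρ, h1⟩ := PB.biUnion' S
    (fun q => Pair {L : IntermediateField K Ω | Cls 𝓑 L} {L | Cls 𝓑 L} q.1 q.2) hn (by
      rintro ⟨u, v⟩ hq
      rw [hS, Finset.mem_filter] at hq
      obtain ⟨-, h1, ⟨t, ht⟩, h2, h3, ⟨s, hs⟩, h4⟩ := hq
      simp only at h1 ht h2 h3 hs h4
      obtain ⟨θ, hθ, h5⟩ := h u h1 (by omega)
      obtain ⟨θ', hθ', h6⟩ := h v h3 (by omega)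
      have := key u t ht.symm h2 θ hθ
      have := key v s hs.symm h4 θ' hθ'
      exact ⟨θ / t + θ' / s, by linarith, PB.pair hn ht.symm hs.symm h5 h6⟩)
  obtain ⟨ρ', hρ', h2⟩ := PB.biUnion' T
    (fun q => Pair {L : IntermediateField K Ω | Cls 𝓑 L} Set.univ q.1 q.2) hn (by
      rintro ⟨u, v⟩ hq
      rw [hT, Finset.mem_filter] at hq
      obtain ⟨-, h1, ⟨t, ht⟩, h2, h3, ⟨s, hs⟩, h4⟩ := hq
      simp only at h1 ht h2 h3 hs h4
      obtain ⟨θ, hθ, h5⟩ := h u h1 (by omega)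
      have h6 := key u t ht.symm h2 θ hθ
      have h7 : 4 * v ≤ s := by
        rw [hs] at h4
        have : v * (4 * v) ≤ v * s := by
          calc v * (4 * v) = 4 * v ^ 2 := by ring
            _ ≤ _ := h4
        exact Nat.le_of_mul_le_mul_left this h3
      have h8 : (2 * (v : ℝ)) / s ≤ 1 / 2 := by
        have h9 : (4 * (v : ℝ)) ≤ s := by exact_mod_cast h7
        have h10 : (0 : ℝ) < v := by exact_mod_cast h3
        rw [div_le_iff₀ (by linarith)]
        linarith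
      exact ⟨θ / t + (2 * v) / s, by linarith, PB.pair hn ht.symm hs.symm h5 (PB.all v h3)⟩)
  refine ⟨max ρ ρ', max_lt hρ hρ', ?_⟩
  refine PB.mono hn le_rfl ?_ ((h1.mono hn (le_max_left _ _) fun _ h _ => h).union hn
    (h2.mono hn (le_max_right _ _) fun _ h _ => h))
  rintro L ⟨F, ⟨hF1, hF2, hF3⟩, E, h3, h4, hFL, hEL, hle⟩ hd
  have hfdL : FiniteDimensional K L := FiniteDimensional.of_finrank_pos (by omega)
  have hfdE : FiniteDimensional K E :=
    (IntermediateField.restrictAlgEquiv hEL).symm.toLinearEquiv.finiteDimensional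
  have hE0 : 0 < Module.finrank K E := Module.finrank_pos
  have hdF := IntermediateField.finrank_dvd_of_le_right hFL
  have hdE := IntermediateField.finrank_dvd_of_le_right hEL
  rw [hd] at hdF hdE
  have hEn := Nat.le_of_dvd hn hdE
  rcases h4 with ⟨⟨hE1, -, -⟩, h5⟩ | h5
  · left
    rw [Set.mem_iUnion₂]
    refine ⟨(Module.finrank K F, Module.finrank K E), ?_, F, hF1, E, hE1, rfl, rfl, hFL, hEL, hle⟩
    rw [hS, Finset.mem_filter, Finset.mem_product, Finset.mem_range, Finset.mem_range]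
    exact ⟨⟨by omega, by omega⟩, hF2, hdF, h3, hE0, hdE, h5⟩
  · right
    rw [Set.mem_iUnion₂]
    refine ⟨(Module.finrank K F, Module.finrank K E), ?_, F, hF1, E, Set.mem_univ _, rfl, rfl, hFL,
      hEL, hle⟩
    rw [hT, Finset.mem_filter, Finset.mem_product, Finset.mem_range, Finset.mem_range]
    exact ⟨⟨by omega, by omega⟩, hF2, hdF, h3, hE0, hdE, h5⟩

theorem low_good {𝓑 : Set (IntermediateField K Ω)} (hB : Good 𝓑) (n : ℕ)
    (h : ∀ m : ℕ, 0 < m → m < n → ∃ θ : ℝ, θ < 3 / 2 ∧ PB {L | Cls 𝓑 L} m θ) :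
    Good (𝓑 ∪ Low 𝓑 n) := by
  intro m hm
  by_cases hmn : m < n
  · obtain ⟨θ, hθ, h1⟩ := h m hm hmn
    refine ⟨θ, hθ, h1.mono hm le_rfl ?_⟩
    rintro L (hL | hL) -
    · exact Cls.base L hL
    · exact hL.1
  · obtain ⟨θ, hθ, h1⟩ := hB m hm
    refine ⟨θ, hθ, h1.mono hm le_rfl ?_⟩
    rintro L (hL | hL) hd
    · exact hL
    · exact absurd (hd ▸ hL.2.2) hmn

/-- the class of a good family is good -/
theorem good_cls {𝓑 : Set (IntermediateField K Ω)} (hB : Good 𝓑) : Good {L | Cls 𝓑 L} := by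
  intro n
  induction n using Nat.strong_induction_on with
  | _ n ih =>
    intro hn
    have h : ∀ m : ℕ, 0 < m → m < n → ∃ θ : ℝ, θ < 3 / 2 ∧ PB {L | Cls 𝓑 L} m θ :=
      fun m hm hmn => ih m hmn hm
    obtain ⟨θ, hθ, h1⟩ := hB n hn
    have h2 := bd_any (low_good hB n h) n hn
    obtain ⟨ρ, hρ, h3⟩ := rest_PB' 𝓑 n hn h
    refine ⟨max θ 1, max_lt hθ (by norm_num), ?_⟩
    refine PB.mono (𝓑 := 𝓑 ∪ (SAb (𝓑 ∪ Low 𝓑 n) ∪ Rest 𝓑 n)) hn le_rfl ?_ ?_
    · intro L hL hd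
      exact cases_cls 𝓑 n hn L hL hd
    · refine (h1.mono hn (le_max_left _ _) fun _ h _ => h).union hn
        ((h2.mono hn (le_max_right _ _) fun _ h _ => h).union hn
          (h3.mono hn ?_ fun _ h _ => h))
      exact hρ.le.trans (le_max_right θ 1)

/-- the members of degree `n`, up to few of them, are nontrivial solvable Galois extensions of
members -/
theorem rest_PB {𝓑 : Set (IntermediateField K Ω)} (hB : Good 𝓑) (n : ℕ) (hn : 0 < n)
    (h : ∃ θ : ℝ, θ < 1 ∧ PB 𝓑 n θ) :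
    ∃ ρ : ℝ, ρ < 1 ∧ PB {L | Cls 𝓑 L ∧ L ∉ SAb {L | Cls 𝓑 L}} n ρ := by
  obtain ⟨θ, hθ, h⟩ := h
  obtain ⟨ρ, hρ, h3⟩ := rest_PB' 𝓑 n hn fun m hm _ => good_cls hB m hm
  refine ⟨max θ ρ, max_lt hθ hρ, ?_⟩
  refine PB.mono (𝓑 := 𝓑 ∪ Rest 𝓑 n) hn le_rfl ?_
    ((h.mono hn (le_max_left _ _) fun _ h _ => h).union hn
      (h3.mono hn (le_max_right _ _) fun _ h _ => h))
  rintro L ⟨h1, h2⟩ hd
  rcases cases_cls 𝓑 n hn L h1 hd with h4 | h4 | h4
  · exact Or.inl h4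
  · exfalso
    apply h2
    refine sAb_mono ?_ h4
    rintro F (hF | hF)
    · exact Cls.base F hF
    · exact hF.1
  · exact Or.inr h4

/-- even degree -/
theorem main_even {𝓑 : Set (IntermediateField K Ω)} (hB : Good 𝓑) (k : ℕ) (hk : 0 < k)
    (hne : ∃ F, Cls 𝓑 F ∧ Module.finrank K F = k) :
    ∃ c : ℝ, 0 < c ∧ Tendsto (fun X : ℝ =>
      ((Cnt (SAb {L | Cls 𝓑 L}) (2 * k) X).ncard : ℝ) / X) atTop (𝓝 c) := by
  obtain ⟨F, hF, hd⟩ := hne
  exact lim_even (good_cls hB) k hk ⟨F, STow.base F hF, hd⟩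

theorem main_even' {𝓑 : Set (IntermediateField K Ω)} (hB : Good 𝓑) (k : ℕ) (hk : 0 < k)
    (hne : ∃ F, Cls 𝓑 F ∧ Module.finrank K F = k) (h : ∃ θ : ℝ, θ < 1 ∧ PB 𝓑 (2 * k) θ) :
    ∃ c : ℝ, 0 < c ∧ Tendsto (fun X : ℝ =>
      ((Cnt {L | Cls 𝓑 L} (2 * k) X).ncard : ℝ) / X) atTop (𝓝 c) := by
  obtain ⟨c, hc, hlim⟩ := main_even hB k hk hne
  refine ⟨c, hc, ?_⟩
  obtain ⟨η, hη1, C, hC⟩ := rest_PB hB (2 * k) (by omega) h
  have hsplit : ∀ X : ℝ, ((Cnt {L | Cls 𝓑 L} (2 * k) X).ncard : ℝ) =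
      (Cnt (SAb {L | Cls 𝓑 L}) (2 * k) X).ncard +
      (Cnt {L | Cls 𝓑 L ∧ L ∉ SAb {L | Cls 𝓑 L}} (2 * k) X).ncard := by
    intro X
    have h1 : Cnt {L | Cls 𝓑 L} (2 * k) X = Cnt (SAb {L | Cls 𝓑 L}) (2 * k) X ∪
        Cnt {L | Cls 𝓑 L ∧ L ∉ SAb {L | Cls 𝓑 L}} (2 * k) X := by
      ext L
      have h2 : L ∈ SAb {L | Cls 𝓑 L} → Cls 𝓑 L := by
        intro h3
        obtain ⟨F, hF, -, hs⟩ := (sAb_cls 𝓑 L).1 h3
        exact Cls.step F L hF hs
      simp only [Cnt, Set.mem_ofPred_eq, Set.mem_union]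
      tauto
    have h3 : Disjoint (Cnt (SAb {L | Cls 𝓑 L}) (2 * k) X)
        (Cnt {L | Cls 𝓑 L ∧ L ∉ SAb {L | Cls 𝓑 L}} (2 * k) X) := by
      rw [Set.disjoint_left]
      intro L h4 h5
      exact h5.1.2 h4.1
    rw [h1, Set.ncard_union_eq h3 (cnt_finite _ _ (by omega) _) (cnt_finite _ _ (by omega) _)]
    push_cast
    rfl
  have hrest : Tendsto (fun X : ℝ =>
      ((Cnt {L | Cls 𝓑 L ∧ L ∉ SAb {L | Cls 𝓑 L}} (2 * k) X).ncard : ℝ) / X) atTop (𝓝 0) := by
    have h1 : Tendsto (fun X : ℝ => |C| * X ^ (-(1 - η))) atTop (𝓝 (|C| * 0)) :=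
      (tendsto_rpow_neg_atTop (by linarith)).const_mul _
    rw [mul_zero] at h1
    refine squeeze_zero' ?_ ?_ h1
    · filter_upwards [eventually_ge_atTop (1 : ℝ)] with X hX
      positivity
    · filter_upwards [eventually_ge_atTop (1 : ℝ)] with X hX
      have hX0 : 0 < X := by linarith
      rw [div_le_iff₀ hX0]
      have h2 : X ^ (-(1 - η)) * X = X ^ η := by
        have h3 : X ^ (-(1 - η)) * X = X ^ (-(1 - η)) * X ^ (1 : ℝ) := by rw [Real.rpow_one]
        rw [h3, ← Real.rpow_add hX0]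
        congr 1
        ring
      rw [mul_assoc, h2]
      exact (hC X hX).trans (mul_le_mul_of_nonneg_right (le_abs_self C) (by positivity))
  have := hlim.add hrest
  rw [add_zero] at this
  refine this.congr fun X => ?_
  rw [hsplit X, add_div]

/-- odd degree -/
theorem main_odd {𝓑 : Set (IntermediateField K Ω)} (hB : Good 𝓑) (n : ℕ) (hn : Odd n)
    (h : ∃ θ : ℝ, θ < 1 ∧ PB 𝓑 n θ) : ∃ η : ℝ, η < 1 ∧ PB {L | Cls 𝓑 L} n η := by
  obtain ⟨η, hη, h1⟩ := bd_odd (good_cls hB) n hn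
  obtain ⟨ρ, hρ, h2⟩ := rest_PB hB n hn.pos h
  refine ⟨max η ρ, max_lt hη hρ, ?_⟩
  refine PB.mono hn.pos le_rfl ?_ ((h1.mono hn.pos (le_max_left _ _) fun _ h _ => h).union hn.pos
    (h2.mono hn.pos (le_max_right _ _) fun _ h _ => h))
  intro L hL _
  by_cases h3 : L ∈ SAb {L | Cls 𝓑 L}
  · exact Or.inl h3
  · exact Or.inr ⟨hL, h3⟩

end Pool.Agent.Q17.CL
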