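import Pool.Agent.Q258.LQ.Fin
import Pool.Agent.Q259.CA_FG
import Pool.Agent.TH979.ML.Rel2

/-!
# Counting functions of families of extensions

`PB 𝓑 m θ`: the family `𝓑` has `O(X ^ θ)` members of degree `m`. The fields between `F` and its
normal closure.
-/

set_option autoImplicit false

open NumberField Filter Topology

namespace Pool.Agent.Q17.CL

open Pool.Agent.TH444.ML (dsc)
open Pool.Agent.Q258.LQ (SolvGal STow SAb fin_even fin_odd finite_dsc exists_PT sTow_iff)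

variable {K Ω : Type} [Field K] [NumberField K] [Field Ω] [Algebra K Ω] [IsAlgClosure K Ω]

/-- the members of degree `m` and discriminant at most `X` -/
def Cnt (𝓑 : Set (IntermediateField K Ω)) (m : ℕ) (X : ℝ) : Set (IntermediateField K Ω) :=
  {L | L ∈ 𝓑 ∧ Module.finrank K L = m ∧ dsc L ≤ X}

/-- `O(X ^ θ)` members of degree `m` -/
def PB (𝓑 : Set (IntermediateField K Ω)) (m : ℕ) (θ : ℝ) : Prop :=
  ∃ C : ℝ, ∀ X : ℝ, 1 ≤ X → ((Cnt 𝓑 m X).ncard : ℝ) ≤ C * X ^ θ

theorem cnt_finite (𝓑 : Set (IntermediateField K Ω)) (m : ℕ) (hm : 0 < m) (X : ℝ) :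
    (Cnt 𝓑 m X).Finite :=
  (finite_dsc m hm X).subset fun _ hL => hL.2

theorem PB.mono {𝓐 𝓑 : Set (IntermediateField K Ω)} {m : ℕ} (hm : 0 < m) {θ θ' : ℝ}
    (hθ : θ ≤ θ') (h : ∀ L ∈ 𝓐, Module.finrank K L = m → L ∈ 𝓑) (h1 : PB 𝓑 m θ) : PB 𝓐 m θ' := by
  obtain ⟨C, hC⟩ := h1
  refine ⟨|C|, fun X hX => ?_⟩
  have h2 : (Cnt 𝓐 m X).ncard ≤ (Cnt 𝓑 m X).ncard :=
    Set.ncard_le_ncard (fun L hL => ⟨h L hL.1 hL.2.1, hL.2⟩) (cnt_finite 𝓑 m hm X)
  have h3 : X ^ θ ≤ X ^ θ' := Real.rpow_le_rpow_of_exponent_le hX hθ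
  have h4 : (0 : ℝ) ≤ X ^ θ := Real.rpow_nonneg (by linarith) _
  calc ((Cnt 𝓐 m X).ncard : ℝ) ≤ ((Cnt 𝓑 m X).ncard : ℝ) := by exact_mod_cast h2
    _ ≤ C * X ^ θ := hC X hX
    _ ≤ |C| * X ^ θ := mul_le_mul_of_nonneg_right (le_abs_self C) h4
    _ ≤ |C| * X ^ θ' := mul_le_mul_of_nonneg_left h3 (abs_nonneg C)

theorem PB.union {𝓐 𝓑 : Set (IntermediateField K Ω)} {m : ℕ} (hm : 0 < m) {θ : ℝ}
    (h1 : PB 𝓐 m θ) (h2 : PB 𝓑 m θ) : PB (𝓐 ∪ 𝓑) m θ := by
  obtain ⟨C, hC⟩ := h1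
  obtain ⟨D, hD⟩ := h2
  refine ⟨C + D, fun X hX => ?_⟩
  have h3 : Cnt (𝓐 ∪ 𝓑) m X = Cnt 𝓐 m X ∪ Cnt 𝓑 m X := by
    ext L
    simp only [Cnt, Set.mem_ofPred_eq, Set.mem_union]
    tauto
  have h4 : (Cnt (𝓐 ∪ 𝓑) m X).ncard ≤ (Cnt 𝓐 m X).ncard + (Cnt 𝓑 m X).ncard := by
    rw [h3]
    exact Set.ncard_union_le _ _
  have h5 : ((Cnt (𝓐 ∪ 𝓑) m X).ncard : ℝ) ≤ (Cnt 𝓐 m X).ncard + (Cnt 𝓑 m X).ncard := by
    exact_mod_cast h4
  have := hC X hX
  have := hD X hX
  rw [add_mul]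
  linarith

theorem PB.empty (m : ℕ) (hm : 0 < m) (θ : ℝ) : PB (∅ : Set (IntermediateField K Ω)) m θ := by
  refine ⟨0, fun X hX => ?_⟩
  have : Cnt (∅ : Set (IntermediateField K Ω)) m X = ∅ := by
    ext L
    simp [Cnt]
  rw [this]
  simp

theorem PB.singleton (F : IntermediateField K Ω) (m : ℕ) (hm : 0 < m) (θ : ℝ) (hθ : 0 ≤ θ) :
    PB ({F} : Set (IntermediateField K Ω)) m θ := by
  refine ⟨1, fun X hX => ?_⟩
  have h1 : (Cnt ({F} : Set (IntermediateField K Ω)) m X).ncard ≤ 1 := by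
    have : Cnt ({F} : Set (IntermediateField K Ω)) m X ⊆ {F} := fun L hL => hL.1
    refine (Set.ncard_le_ncard this (Set.finite_singleton _)).trans ?_
    rw [Set.ncard_singleton]
  have h2 : (1 : ℝ) ≤ X ^ θ := Real.one_le_rpow hX hθ
  have h3 : ((Cnt ({F} : Set (IntermediateField K Ω)) m X).ncard : ℝ) ≤ 1 := by exact_mod_cast h1
  linarith

theorem PB.biUnion {ι : Type} (s : Finset ι) (A : ι → Set (IntermediateField K Ω)) {m : ℕ}
    (hm : 0 < m) {θ : ℝ} (h : ∀ i ∈ s, PB (A i) m θ) : PB (⋃ i ∈ s, A i) m θ := by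
  classical
  induction s using Finset.induction_on with
  | empty => simpa using PB.empty m hm θ
  | insert a s ha ih =>
    rw [Finset.set_biUnion_insert]
    exact (h a (Finset.mem_insert_self _ _)).union hm
      (ih fun i hi => h i (Finset.mem_insert_of_mem hi))

/-- the degree of the normal closure -/
theorem finrank_ncl_le (F : IntermediateField K Ω) [FiniteDimensional K F] :
    Module.finrank K (IntermediateField.normalClosure K F Ω) ≤ (Module.finrank K F).factorial := by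
  classical
  have i1 : IsAlgClosed Ω := IsAlgClosure.isAlgClosed K
  have i2 : Normal K Ω := IsAlgClosure.normal K Ω
  have i3 : Algebra.IsAlgebraic K Ω := IsAlgClosure.isAlgebraic
  have i4 : Algebra.IsSeparable K Ω := inferInstance
  have h1 := Pool.Agent.TH365.J3099.ncard_imP (K := K) F
    (X := F →ₐ[K] Ω) (Equiv.refl _)
  rw [← h1]
  have h2 : Nat.card (Equiv.Perm (F →ₐ[K] Ω)) = (Module.finrank K F).factorial := by
    rw [Nat.card_perm, Nat.card_eq_fintype_card, AlgHom.card]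
  rw [← h2, ← Set.ncard_univ]
  exact Set.ncard_le_ncard (Set.subset_univ _) (Set.toFinite _)

/-- the fields between a member `F` of degree `u` of `𝓒` and its normal closure -/
def Up (𝓒 : Set (IntermediateField K Ω)) (u : ℕ) : Set (IntermediateField K Ω) :=
  {L | ∃ F ∈ 𝓒, Module.finrank K F = u ∧ F ≤ L ∧ L ≤ IntermediateField.normalClosure K F Ω}

/-- the members between `F` and its normal closure are few -/
theorem below_card (F : IntermediateField K Ω) (u : ℕ) (hu : 0 < u) (hF : Module.finrank K F = u) :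
    {L : IntermediateField K Ω | L ≤ IntermediateField.normalClosure K F Ω}.Finite ∧
    {L : IntermediateField K Ω | L ≤ IntermediateField.normalClosure K F Ω}.ncard ≤
      2 ^ u.factorial := by
  classical
  have i1 : IsAlgClosed Ω := IsAlgClosure.isAlgClosed K
  have i2 : Normal K Ω := IsAlgClosure.normal K Ω
  have i3 : Algebra.IsAlgebraic K Ω := IsAlgClosure.isAlgebraic
  have i4 : Algebra.IsSeparable K Ω := inferInstance
  have hfd : FiniteDimensional K F := FiniteDimensional.of_finrank_pos (by omega)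
  have hgal : IsGalois K (IntermediateField.normalClosure K F Ω) := ⟨⟩
  have hle := finrank_ncl_le F
  rw [hF] at hle
  have hb : ∀ s : Finset (IntermediateField K Ω),
      (∀ M ∈ s, M ≤ IntermediateField.normalClosure K F Ω) → s.card ≤ 2 ^ u.factorial :=
    fun s hs => (Pool.Agent.Q259.CA_FG.card_below _ _ rfl s hs).trans
      (Nat.pow_le_pow_right (by norm_num) hle)
  have hfin : {L : IntermediateField K Ω | L ≤ IntermediateField.normalClosure K F Ω}.Finite := by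
    by_contra hinf
    obtain ⟨t, ht1, ht2⟩ := (Set.not_finite.1 hinf).exists_subset_card_eq (2 ^ u.factorial + 1)
    have := hb t (fun M hM => ht1 hM)
    omega
  refine ⟨hfin, ?_⟩
  rw [Set.ncard_eq_toFinset_card _ hfin]
  exact hb _ fun M hM => (Set.Finite.mem_toFinset _).1 hM

theorem one_le_dsc (L : IntermediateField K Ω) [FiniteDimensional K L] : 1 ≤ dsc L := by
  have h : NumberField L := NumberField.of_module_finite K L
  rw [Pool.Agent.Q259.CA_FG.dsc_eq]
  exact_mod_cast Pool.Agent.Q259.CA_FG.one_le L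

theorem PB.up {𝓒 : Set (IntermediateField K Ω)} {u t : ℕ} (hu : 0 < u) (ht : 0 < t) {θ : ℝ}
    (h : PB 𝓒 u θ) : PB (Up 𝓒 u) (u * t) (θ / t) := by
  classical
  obtain ⟨C, hC⟩ := h
  refine ⟨2 ^ u.factorial * C, fun X hX => ?_⟩
  set Y : ℝ := X ^ (1 / (t : ℝ)) with hY
  have ht0 : (0 : ℝ) < t := by exact_mod_cast ht
  have hX0 : 0 < X := by linarith
  have hY1 : 1 ≤ Y := Real.one_le_rpow hX (by positivity)
  have hYt : Y ^ t = X := by
    rw [hY, ← Real.rpow_natCast, ← Real.rpow_mul hX0.le]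
    rw [one_div, inv_mul_cancel₀ ht0.ne', Real.rpow_one]
  have hfin := cnt_finite 𝓒 u hu Y
  have hsub : Cnt (Up 𝓒 u) (u * t) X ⊆ ⋃ F ∈ hfin.toFinset,
      {L : IntermediateField K Ω | L ≤ IntermediateField.normalClosure K F Ω} := by
    rintro L ⟨⟨F, hF1, hF2, hF3, hF4⟩, hL2, hL3⟩
    rw [Set.mem_iUnion₂]
    refine ⟨F, ?_, hF4⟩
    rw [Set.Finite.mem_toFinset]
    refine ⟨hF1, hF2, ?_⟩
    have hfdL : FiniteDimensional K L := by
      apply FiniteDimensional.of_finrank_pos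
      rw [hL2]
      positivity
    have hfdF : FiniteDimensional K F := by
      apply FiniteDimensional.of_finrank_pos
      omega
    have h1 : dsc F ^ t ≤ dsc L :=
      Pool.Agent.Q259.CA_FG.dsc_tower F L hF3 t (by rw [hF2, hL2])
    have h2 : dsc F ^ t ≤ Y ^ t := by
      rw [hYt]
      exact h1.trans hL3
    exact le_of_pow_le_pow_left₀ ht.ne' (by linarith) h2
  have hU := Pool.Agent.Q258.LQ.Sch.ncard_biUnion_le' hfin.toFinset
    (fun F : IntermediateField K Ω =>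
      {L : IntermediateField K Ω | L ≤ IntermediateField.normalClosure K F Ω}) (2 ^ u.factorial)
    (fun F hF => (below_card F u hu ((Set.Finite.mem_toFinset _).1 hF).2.1).1)
    (fun F hF => (below_card F u hu ((Set.Finite.mem_toFinset _).1 hF).2.1).2)
  have h1 := (Set.ncard_le_ncard hsub hU.1).trans hU.2
  rw [← Set.ncard_eq_toFinset_card _ hfin] at h1
  have h2 : ((Cnt (Up 𝓒 u) (u * t) X).ncard : ℝ) ≤ (Cnt 𝓒 u Y).ncard * 2 ^ u.factorial := by
    exact_mod_cast h1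
  have h3 : Y ^ θ = X ^ (θ / t) := by
    rw [hY, ← Real.rpow_mul hX0.le]
    congr 1
    field_simp
  calc ((Cnt (Up 𝓒 u) (u * t) X).ncard : ℝ) ≤ (Cnt 𝓒 u Y).ncard * 2 ^ u.factorial := h2
    _ ≤ (C * Y ^ θ) * 2 ^ u.factorial :=
        mul_le_mul_of_nonneg_right (hC Y hY1) (by positivity)
    _ = 2 ^ u.factorial * C * X ^ (θ / t) := by rw [h3]; ring

/-- all extensions of degree `u` -/
theorem PB.all (u : ℕ) (hu : 0 < u) : PB (Set.univ : Set (IntermediateField K Ω)) u (2 * u) := by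
  obtain ⟨C, hC⟩ := Pool.Agent.TH979.J3100.hermiteRel K Ω u
  refine ⟨C, fun X hX => ?_⟩
  have h1 := (hC X hX).2
  have h2 : Cnt (Set.univ : Set (IntermediateField K Ω)) u X =
      {F : IntermediateField K Ω | FiniteDimensional K F ∧ Module.finrank K F = u ∧ dsc F ≤ X} := by
    ext L
    simp only [Cnt, Set.mem_ofPred_eq, Set.mem_univ, true_and]
    constructor
    · rintro ⟨h3, h4⟩
      exact ⟨FiniteDimensional.of_finrank_pos (by omega), h3, h4⟩
    · rintro ⟨-, h3, h4⟩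
      exact ⟨h3, h4⟩
  rw [h2]
  have h3 : X ^ (2 * (u : ℝ)) = X ^ (2 * u) := by
    rw [← Real.rpow_natCast]
    push_cast
    rfl
  rw [h3]
  exact h1

/-- the fields `M` with a subfield `F` with the same normal closure, `2 [F : K] ^ 2 < [M : K]` -/
def Small (K Ω : Type) [Field K] [Field Ω] [Algebra K Ω] : Set (IntermediateField K Ω) :=
  {M | ∃ F : IntermediateField K Ω, F ≤ M ∧ M ≤ IntermediateField.normalClosure K F Ω ∧
    2 * Module.finrank K F ^ 2 < Module.finrank K M}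

theorem small_PB (m : ℕ) (hm : 0 < m) : ∃ θ : ℝ, θ < 1 ∧ 0 ≤ θ ∧ PB (Small K Ω) m θ := by
  classical
  set S : Finset ℕ := (Finset.range (m + 1)).filter fun u => 0 < u ∧ u ∣ m ∧ 2 * u ^ 2 < m with hS
  refine ⟨((m : ℝ) - 1) / m, ?_, ?_, ?_⟩
  · rw [div_lt_one (by exact_mod_cast hm)]
    linarith
  · have : (1 : ℝ) ≤ m := by exact_mod_cast hm
    apply div_nonneg <;> linarith
  · refine PB.mono hm le_rfl ?_ (PB.biUnion S (fun u => Up (Set.univ : Set (IntermediateField K Ω)) u)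
      hm (θ := ((m : ℝ) - 1) / m) ?_)
    · rintro M ⟨F, h1, h2, h3⟩ hM
      rw [Set.mem_iUnion₂]
      have hfdM : FiniteDimensional K M := FiniteDimensional.of_finrank_pos (by omega)
      have hfdF : FiniteDimensional K F :=
        (IntermediateField.restrictAlgEquiv h1).symm.toLinearEquiv.finiteDimensional
      have h0 : 0 < Module.finrank K F := Module.finrank_pos
      refine ⟨Module.finrank K F, ?_, F, Set.mem_univ _, rfl, h1, h2⟩
      rw [hS, Finset.mem_filter, Finset.mem_range]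
      have h4 := IntermediateField.finrank_dvd_of_le_right h1
      rw [hM] at h3 h4
      have h5 := Nat.le_of_dvd hm h4
      exact ⟨by omega, h0, h4, h3⟩
    · intro u hu
      rw [hS, Finset.mem_filter] at hu
      obtain ⟨-, h0, ⟨t, rfl⟩, h3⟩ := hu
      have ht : 0 < t := Nat.pos_of_mul_pos_left hm
      refine PB.mono hm ?_ (fun L hL _ => hL) ((PB.all u h0).up h0 ht)
      have hu0 : (0 : ℝ) < u := by exact_mod_cast h0
      have ht0 : (0 : ℝ) < t := by exact_mod_cast ht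
      push_cast
      rw [div_le_div_iff₀ ht0 (by positivity)]
      have h4 : 2 * u ^ 2 + 1 ≤ u * t := h3
      have h5 : (2 * (u : ℝ) ^ 2 + 1) ≤ u * t := by exact_mod_cast h4
      nlinarith

/-- the fields `L` above a member `F` of degree `u` of `𝓒` and a member `E` of degree `v` of `𝓓`, inside
the normal closure of `F ⊔ E` -/
def Pair (𝓒 𝓓 : Set (IntermediateField K Ω)) (u v : ℕ) : Set (IntermediateField K Ω) :=
  {L | ∃ F ∈ 𝓒, ∃ E ∈ 𝓓, Module.finrank K F = u ∧ Module.finrank K E = v ∧ F ≤ L ∧ E ≤ L ∧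
    L ≤ IntermediateField.normalClosure K (F ⊔ E : IntermediateField K Ω) Ω}

theorem below_card' (F : IntermediateField K Ω) [hfd : FiniteDimensional K F] (w : ℕ)
    (hF : Module.finrank K F ≤ w) :
    {L : IntermediateField K Ω | L ≤ IntermediateField.normalClosure K F Ω}.Finite ∧
    {L : IntermediateField K Ω | L ≤ IntermediateField.normalClosure K F Ω}.ncard ≤
      2 ^ w.factorial := by
  obtain ⟨h1, h2⟩ := below_card F _ Module.finrank_pos rfl
  exact ⟨h1, h2.trans (Nat.pow_le_pow_right (by norm_num) (Nat.factorial_le hF))⟩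

theorem root_pow {X : ℝ} (hX : 1 ≤ X) {t : ℕ} (ht : 0 < t) :
    1 ≤ X ^ (1 / (t : ℝ)) ∧ (X ^ (1 / (t : ℝ))) ^ t = X ∧
      ∀ θ : ℝ, (X ^ (1 / (t : ℝ))) ^ θ = X ^ (θ / t) := by
  have ht0 : (0 : ℝ) < t := by exact_mod_cast ht
  have hX0 : 0 < X := by linarith
  refine ⟨Real.one_le_rpow hX (by positivity), ?_, fun θ => ?_⟩
  · rw [← Real.rpow_natCast, ← Real.rpow_mul hX0.le]
    rw [one_div, inv_mul_cancel₀ ht0.ne', Real.rpow_one]
  · rw [← Real.rpow_mul hX0.le]
    congr 1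
    field_simp

/-- discriminants of subfields -/
theorem dsc_le_root {F L : IntermediateField K Ω} (h : F ≤ L) {t : ℕ} (ht : 0 < t)
    (hL : 0 < Module.finrank K L) (hd : Module.finrank K F * t = Module.finrank K L) {X : ℝ}
    (hX : 1 ≤ X) (hLX : dsc L ≤ X) : dsc F ≤ X ^ (1 / (t : ℝ)) := by
  have hfdL : FiniteDimensional K L := FiniteDimensional.of_finrank_pos hL
  have h1 : dsc F ^ t ≤ dsc L := Pool.Agent.Q259.CA_FG.dsc_tower F L h t hd
  obtain ⟨h2, h3, -⟩ := root_pow hX ht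
  exact le_of_pow_le_pow_left₀ ht.ne' (by linarith) (by rw [h3]; exact h1.trans hLX)

theorem PB.pair {𝓒 𝓓 : Set (IntermediateField K Ω)} {u v t s n : ℕ} (hn : 0 < n) (h1 : u * t = n)
    (h2 : v * s = n) {θ θ' : ℝ} (h : PB 𝓒 u θ) (h' : PB 𝓓 v θ') :
    PB (Pair 𝓒 𝓓 u v) n (θ / t + θ' / s) := by
  classical
  have hu : 0 < u := by
    rcases Nat.eq_zero_or_pos u with h3 | h3
    · subst h3; omega
    · exact h3
  have ht : 0 < t := by
    rcases Nat.eq_zero_or_pos t with h3 | h3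
    · subst h3; omega
    · exact h3
  have hv : 0 < v := by
    rcases Nat.eq_zero_or_pos v with h3 | h3
    · subst h3; omega
    · exact h3
  have hs : 0 < s := by
    rcases Nat.eq_zero_or_pos s with h3 | h3
    · subst h3; omega
    · exact h3
  obtain ⟨C, hC⟩ := h
  obtain ⟨D, hD⟩ := h'
  refine ⟨2 ^ (u * v).factorial * |C| * |D|, fun X hX => ?_⟩
  have hX0 : 0 < X := by linarith
  obtain ⟨hY1, -, hY2⟩ := root_pow hX ht
  obtain ⟨hZ1, -, hZ2⟩ := root_pow hX hs
  set Y : ℝ := X ^ (1 / (t : ℝ)) with hY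
  set Z : ℝ := X ^ (1 / (s : ℝ)) with hZ
  have hfin := cnt_finite 𝓒 u hu Y
  have hfin' := cnt_finite 𝓓 v hv Z
  have hsub : Cnt (Pair 𝓒 𝓓 u v) n X ⊆ ⋃ q ∈ hfin.toFinset ×ˢ hfin'.toFinset,
      {L : IntermediateField K Ω |
        L ≤ IntermediateField.normalClosure K (q.1 ⊔ q.2 : IntermediateField K Ω) Ω} := by
    rintro L ⟨⟨F, hF1, E, hE1, hF2, hE2, hF3, hE3, hL1⟩, hL2, hL3⟩
    rw [Set.mem_iUnion₂]
    refine ⟨(F, E), ?_, hL1⟩
    rw [Finset.mem_product, Set.Finite.mem_toFinset, Set.Finite.mem_toFinset]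
    refine ⟨⟨hF1, hF2, ?_⟩, ⟨hE1, hE2, ?_⟩⟩
    · exact dsc_le_root hF3 ht (by omega) (by rw [hF2, hL2, h1]) hX hL3
    · exact dsc_le_root hE3 hs (by omega) (by rw [hE2, hL2, h2]) hX hL3
  have hU := Pool.Agent.Q258.LQ.Sch.ncard_biUnion_le' (hfin.toFinset ×ˢ hfin'.toFinset)
    (fun q : IntermediateField K Ω × IntermediateField K Ω =>
      {L : IntermediateField K Ω |
        L ≤ IntermediateField.normalClosure K (q.1 ⊔ q.2 : IntermediateField K Ω) Ω})
    (2 ^ (u * v).factorial) (fun q hq => by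
      rw [Finset.mem_product, Set.Finite.mem_toFinset, Set.Finite.mem_toFinset] at hq
      have hfd1 : FiniteDimensional K q.1 :=
        FiniteDimensional.of_finrank_pos (by rw [hq.1.2.1]; exact hu)
      have hfd2 : FiniteDimensional K q.2 :=
        FiniteDimensional.of_finrank_pos (by rw [hq.2.2.1]; exact hv)
      have hle := IntermediateField.finrank_sup_le q.1 q.2
      rw [hq.1.2.1, hq.2.2.1] at hle
      exact (below_card' _ _ hle).1) (fun q hq => by
      rw [Finset.mem_product, Set.Finite.mem_toFinset, Set.Finite.mem_toFinset] at hq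
      have hfd1 : FiniteDimensional K q.1 :=
        FiniteDimensional.of_finrank_pos (by rw [hq.1.2.1]; exact hu)
      have hfd2 : FiniteDimensional K q.2 :=
        FiniteDimensional.of_finrank_pos (by rw [hq.2.2.1]; exact hv)
      have hle := IntermediateField.finrank_sup_le q.1 q.2
      rw [hq.1.2.1, hq.2.2.1] at hle
      exact (below_card' _ _ hle).2)
  have h3 := (Set.ncard_le_ncard hsub hU.1).trans hU.2
  rw [Finset.card_product, ← Set.ncard_eq_toFinset_card _ hfin,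
    ← Set.ncard_eq_toFinset_card _ hfin'] at h3
  have h4 : ((Cnt (Pair 𝓒 𝓓 u v) n X).ncard : ℝ) ≤
      (Cnt 𝓒 u Y).ncard * (Cnt 𝓓 v Z).ncard * 2 ^ (u * v).factorial := by
    exact_mod_cast h3
  have h5 : ((Cnt 𝓒 u Y).ncard : ℝ) ≤ |C| * X ^ (θ / t) := by
    rw [← hY2 θ]
    exact (hC Y hY1).trans (mul_le_mul_of_nonneg_right (le_abs_self C) (by positivity))
  have h6 : ((Cnt 𝓓 v Z).ncard : ℝ) ≤ |D| * X ^ (θ' / s) := by
    rw [← hZ2 θ']
    exact (hD Z hZ1).trans (mul_le_mul_of_nonneg_right (le_abs_self D) (by positivity))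
  calc ((Cnt (Pair 𝓒 𝓓 u v) n X).ncard : ℝ)
      ≤ (Cnt 𝓒 u Y).ncard * (Cnt 𝓓 v Z).ncard * 2 ^ (u * v).factorial := h4
    _ ≤ (|C| * X ^ (θ / t)) * (|D| * X ^ (θ' / s)) * 2 ^ (u * v).factorial :=
        mul_le_mul_of_nonneg_right (mul_le_mul h5 h6 (by positivity) (by positivity))
          (by positivity)
    _ = 2 ^ (u * v).factorial * |C| * |D| * X ^ (θ / t + θ' / s) := by
        rw [Real.rpow_add hX0]
        ring

end Pool.Agent.Q17.CL
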